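import Pool.Agent.P.MP_860a31_lc.E.Glue
import Pool.Agent.P.MP_860a31_lc.H.KM

open Pool.Agent.P.MP_860a31_lc

namespace Pool.Agent.Results.MP_860a31_lc.Full

/-- An AEC with amalgamation that is categorical in a cardinal `lam ≥ ℶ_{(2^{LS K})^+}` is
Galois-stable in every `θ ≥ lam`. -/
theorem result (L : FirstOrder.Language.{0, 0}) (K : AEC L) (hAP : K.AP) (lam : Cardinal.{0})
    (hl : hanf K.LS ≤ lam) (hcat : K.Categorical lam) (θ : Cardinal.{0}) (hθ : lam ≤ θ) :
    K.Stable θ :=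
  E.glue (Q := fun _ _ => True) H.kmainH L K hAP lam hl trivial hcat θ hθ

end Pool.Agent.Results.MP_860a31_lc.Full
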