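import Pool.Agent.P.MP_860a31_lc.Inst2
import Pool.Agent.P.MP_860a31_lc.Real
import Pool.Agent.P.MP_860a31_lc.Colim
import Pool.Agent.P.MP_860a31_lc.Dir
import Pool.Agent.P.MP_860a31_lc.Iwa
import Pool.Agent.P.MP_860a31_lc.Blk
import Pool.Agent.P.MP_860a31_lc.Ded
import Pool.Agent.P.MP_860a31_lc.EndHom
import Pool.Agent.P.MP_860a31_lc.Morley
import Pool.Agent.P.MP_860a31_lc.EMx
import Pool.Agent.P.MP_860a31_lc.Stab
import Pool.Agent.P.MP_860a31_lc.Fill1
import Pool.Agent.P.MP_860a31_lc.Tors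
import Pool.Agent.P.MP_860a31_lc.Stb
import Pool.Agent.P.MP_860a31_lc.Top
import Pool.Agent.P.MP_860a31_lc.Amb
import Pool.Agent.P.MP_860a31_lc.Ext
import Pool.Agent.P.MP_860a31_lc.Sat
import Pool.Agent.P.MP_860a31_lc.TopAbs
import Pool.Agent.P.MP_860a31_lc.PshX
import Pool.Agent.P.MP_860a31_lc.Emb

open Pool.Agent.P.MP_860a31_lc

namespace Pool.Agent.Results.MP_860a31_lc.Intersections

/-- An AEC with amalgamation that admits intersections, has a model of size at least
`ℶ_{(2^{LS K})^+}` and is categorical in some `lam > LS K` is Galois-stable in every `θ ≥ lam`. -/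
theorem result (L : FirstOrder.Language.{0, 0}) (K : AEC L) (hAP : K.AP)
    (hI : K.Intersections)
    (hbig : ∃ (M : Type) (_ : L.Structure M), K.Mem M ∧ hanf K.LS ≤ Cardinal.mk M)
    (lam : Cardinal.{0}) (hlam : K.LS < lam) (hcat : K.Categorical lam)
    (θ : Cardinal.{0}) (hθ : lam ≤ θ) : K.Stable θ :=
  have hReal := real (part ded wo) (oneB (topAbs (sat amb (ext amb stb)) (top (swap stb ded)))) psh
    (tors (fill (fill1 stab)))
  goal_of (dirS iwa) (colimK (dirU iwa)) codeK
    (mainC hanfSpec blk (em (morley endHom)) hReal (emb hReal)) L K hAP hI hbig lam hlam hcat θ hθ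

end Pool.Agent.Results.MP_860a31_lc.Intersections
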